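import Pool.Agent.E8helper28.PD.Pd3

/-!
# Primes in almost all translates of the set of palindromes and of its subsets (helper28)
-/

set_option autoImplicit false

namespace Pool.Agent.Results.MP_540de1_nt.AlmostAllTranslatesH28

open Finset

/-- `v` is a palindrome with exactly `k` digits in base `b`: the digit number `j` (which is
`v / b ^ j % b`) is equal to the digit number `k - 1 - j`, for all `j < k`. -/
def Palindrome (b k v : ℕ) : Prop :=
  b ^ (k - 1) ≤ v ∧ v < b ^ k ∧ ∀ j < k, v / b ^ j % b = v / b ^ (k - 1 - j) % b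

open Classical in
/-- The number of the palindromes with `k` digits in base `b`. -/
noncomputable def palCount (b k : ℕ) : ℕ := ((range (b ^ k)).filter (fun v => Palindrome b k v)).card

open Classical in
/-- The number of the palindromes `v` with `k` digits in `S` such that `n + κ v` is a (positive) prime. -/
noncomputable def primeCount (b k : ℕ) (κ : ℤ) (S : Set ℕ) (n : ℕ) : ℕ :=
  ((range (b ^ k)).filter (fun v : ℕ => Palindrome b k v ∧ v ∈ S ∧
    0 < (n : ℤ) + κ * v ∧ ((n : ℤ) + κ * v).natAbs.Prime)).card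

open Classical in
/-- The number of the palindromes `v` with `k` digits in `S` such that `n + κ v` is positive and not divisible by
a prime `p ≤ z`. -/
noncomputable def roughCount (b k z : ℕ) (κ : ℤ) (S : Set ℕ) (n : ℕ) : ℕ :=
  ((range (b ^ k)).filter (fun v : ℕ => Palindrome b k v ∧ v ∈ S ∧
    0 < (n : ℤ) + κ * v ∧ ∀ p : ℕ, p.Prime → p ≤ z → ¬ (p : ℤ) ∣ (n : ℤ) + κ * v)).card

/-- `∏_{p ≤ z} (1 - 1 / p)`, the density of the integers without prime factors `≤ z`. -/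
noncomputable def V (z : ℕ) : ℝ := ∏ p ∈ (Icc 1 z).filter Nat.Prime, (1 - 1 / (p : ℝ))

/-- For each of the sets `𝒮 l` for which there are at least `palCount b k / k ^ A` palindromes `v ∈ 𝒮 l` such
that `n + κ v` is positive without prime factors `≤ z`, the proportion of these `v` for which `n + κ v` is a
prime is `1 / (V z log (b ^ k))`, up to a relative error of at most `ε`. -/
def Relative {m : ℕ} (b k A z : ℕ) (κ : ℤ) (ε : ℝ) (𝒮 : Fin m → Set ℕ) (n : ℕ) : Prop :=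
  ∀ l, (palCount b k : ℝ) / (k : ℝ) ^ A ≤ roughCount b k z κ (𝒮 l) n →
    |(primeCount b k κ (𝒮 l) n : ℝ) - roughCount b k z κ (𝒮 l) n / (V z * Real.log ((b ^ k : ℕ) : ℝ))| ≤
      ε * (roughCount b k z κ (𝒮 l) n / (V z * Real.log ((b ^ k : ℕ) : ℝ)))

open Pool.Agent.E8helper28.PD
open Pool.Agent.H373R2.T7 (pz mem_pz Vz)

lemma pal_eq (b k : ℕ) : palCount b k = (pl b k).card := by
  classical
  unfold palCount pl Palindrome Pool.Agent.TH872.Tr.IsPalindrome
  congr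

lemma prime_eq (b k : ℕ) (κ : ℤ) (S : Set ℕ) [DecidablePred (· ∈ S)] (n : ℕ) :
    primeCount b k κ S n = cp κ n ((pl b k).filter (· ∈ S)) := by
  unfold primeCount cp pl nP Palindrome Pool.Agent.TH872.Tr.IsPalindrome
  congr 1
  ext v
  simp only [mem_filter]
  constructor
  · rintro ⟨h1, h2, h3, h4, h5⟩
    refine ⟨⟨⟨h1, h2⟩, h3⟩, h4, ?_⟩
    rwa [show ((n : ℤ) + κ * v).natAbs = ((n : ℤ) + κ * v).toNat by omega] at h5
  · rintro ⟨⟨⟨h1, h2⟩, h3⟩, h4, h5⟩
    refine ⟨h1, h2, h3, h4, ?_⟩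
    rwa [show ((n : ℤ) + κ * v).natAbs = ((n : ℤ) + κ * v).toNat by omega]

lemma rough_eq (b k z : ℕ) (κ : ℤ) (S : Set ℕ) [DecidablePred (· ∈ S)] (n : ℕ) :
    roughCount b k z κ S n = cr κ z n ((pl b k).filter (· ∈ S)) := by
  unfold roughCount cr pl nR Palindrome Pool.Agent.TH872.Tr.IsPalindrome
  congr 1
  ext v
  simp only [mem_filter]
  have hd : 0 < (n : ℤ) + κ * v → ∀ p : ℕ, (p : ℤ) ∣ (n : ℤ) + κ * v ↔ p ∣ ((n : ℤ) + κ * v).toNat := by
    intro h p
    rw [← Int.natCast_dvd_natCast, Int.toNat_of_nonneg h.le]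
  constructor
  · rintro ⟨h1, h2, h3, h4, h5⟩
    refine ⟨⟨⟨h1, h2⟩, h3⟩, h4, fun p hp => ?_⟩
    rw [← hd h4]
    exact h5 p (mem_pz.1 hp).2 (mem_pz.1 hp).1
  · rintro ⟨⟨⟨h1, h2⟩, h3⟩, h4, h5⟩
    refine ⟨h1, h2, h3, h4, fun p hp1 hp2 => ?_⟩
    rw [hd h4]
    exact h5 p (mem_pz.2 ⟨hp2, hp1⟩)

open Classical in
/-- **Primes in almost all translates of the set of palindromes and of its subsets.** Let `b ≥ 2`, `κ ≠ 0`, `B`,
`T`, `U`, `A` and `ε > 0` be fixed, let `E` be large in terms of them and `k` large in terms of all of them. Let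
`𝒮 1, ..., 𝒮 m`, `m ≤ k ^ T`, be arbitrary sets. Then all but at most `b ^ k / k ^ U` of the integers
`1 ≤ n ≤ B b ^ k` satisfy the statement `Relative` with the sieving limit `z = k ^ E`: among the palindromes
`v ∈ 𝒮 l` with `k` digits such that `n + κ v` has no small prime factor the expected proportion gives primes
`n + κ v`. -/
theorem result (b B T U A : ℕ) (hb : 2 ≤ b) (κ : ℤ) (hκ : κ ≠ 0) (ε : ℝ) (hε : 0 < ε) :
    ∃ E₀ : ℕ, ∀ E : ℕ, E₀ ≤ E → ∃ k₀ : ℕ, ∀ k : ℕ, k₀ ≤ k → ∀ m : ℕ, (m : ℝ) ≤ (k : ℝ) ^ T →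
      ∀ 𝒮 : Fin m → Set ℕ,
        (((Icc 1 (B * b ^ k)).filter (fun n => ¬ Relative b k A (k ^ E) κ ε 𝒮 n)).card : ℝ) ≤
          (b : ℝ) ^ k / (k : ℝ) ^ U := by
  obtain ⟨E₀, h0⟩ := pal_main b B T U A hb κ hκ ε hε
  refine ⟨E₀, fun E hE => ?_⟩
  obtain ⟨k₀, h1⟩ := h0 E hE
  refine ⟨k₀, fun k hk m hm 𝒮 => ?_⟩
  have h2 := h1 k hk m hm (fun l => (pl b k).filter (· ∈ 𝒮 l)) (fun l => filter_subset _ _)
  push_cast at h2
  refine le_trans ?_ h2
  rw [Nat.cast_le]
  apply card_le_card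
  intro n hn
  rw [mem_filter] at hn ⊢
  refine ⟨hn.1, fun hP => hn.2 ?_⟩
  intro l hl
  have h3 := hP l
  rw [pal_eq, rough_eq] at hl
  rw [rough_eq, prime_eq]
  exact h3 hl

end Pool.Agent.Results.MP_540de1_nt.AlmostAllTranslatesH28
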