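import Pool.Agent.E8helper28.PD.Pd7

/-!
# The asymptotic formula for the primes of the form `n + v` and `n - v`, `v` a decimal palindrome, for almost
all `n` (helper28)
-/

set_option autoImplicit false

namespace Pool.Agent.Results.MP_540de1_nt.AsymptoticTranslatesH28

open Finset

/-- `v` is a palindrome with exactly `k` decimal digits. -/
def Palindrome (k v : ℕ) : Prop :=
  10 ^ (k - 1) ≤ v ∧ v < 10 ^ k ∧ (Nat.digits 10 v).reverse = Nat.digits 10 v

open Classical in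
/-- The number of the palindromes `v` with `k` decimal digits such that `n + κ v` is a (positive) prime. -/
noncomputable def primeCount (κ : ℤ) (k n : ℕ) : ℕ :=
  ((range (10 ^ k)).filter (fun v : ℕ => Palindrome k v ∧ 0 < (n : ℤ) + κ * v ∧ ((n : ℤ) + κ * v).natAbs.Prime)).card

/-- The number of the digits `1 ≤ c ≤ 9` such that `n + κ c` is coprime to `10`. -/
def digitCount (κ : ℤ) (n : ℕ) : ℕ := ((Icc 1 9).filter (fun c : ℕ => Int.gcd ((n : ℤ) + κ * c) 10 = 1)).card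

/-- The expected number of the palindromes `v` with `2 L + 1` decimal digits such that `n + κ v` is a prime. -/
noncomputable def expected (κ : ℤ) (L n : ℕ) : ℝ :=
  digitCount κ n * (5 / 2 * 10 ^ L / Real.log ((10 ^ (2 * L + 1) : ℕ) : ℝ))

open Pool.Agent.E8helper28.PD

lemma cc_mod (κ : ℤ) (n : ℕ) : cc κ n = cc κ (n % 10) := by
  unfold cc
  congr 1
  apply filter_congr
  intro c _
  have h : ((n : ℤ) + κ * c) ≡ (((n % 10 : ℕ) : ℤ) + κ * c) [ZMOD 10] := by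
    apply Int.ModEq.add_right
    push_cast
    exact (Int.mod_modEq _ _).symm
  rw [← Int.gcd_emod ((n : ℤ) + κ * c) 10, ← Int.gcd_emod (((n % 10 : ℕ) : ℤ) + κ * c) 10, show ((n : ℤ) + κ * c) % 10 = (((n % 10 : ℕ) : ℤ) + κ * c) % 10 from h]

lemma cc_ge (κ : ℤ) (hκ : κ = 1 ∨ κ = -1) (n : ℕ) : 3 ≤ cc κ n := by
  rw [cc_mod]
  have h : n % 10 < 10 := Nat.mod_lt _ (by norm_num)
  obtain ⟨r, hr⟩ : ∃ r, r = n % 10 := ⟨_, rfl⟩
  rw [← hr] at h ⊢
  rcases hκ with rfl | rfl <;> interval_cases r <;> decide +kernel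

lemma prime_eq (κ : ℤ) (L n : ℕ) : primeCount κ (2 * L + 1) n = cp κ n (pl 10 (2 * L + 1)) := by
  classical
  rw [pl_palin]
  unfold primeCount cp nP Palindrome Pool.Agent.H861R2.Pal.palin
  congr 1
  ext v
  simp only [mem_filter, mem_range, Nat.add_sub_cancel]
  constructor
  · rintro ⟨h1, ⟨h2, _, h3⟩, h4, h5⟩
    refine ⟨⟨h1, h2, h3⟩, h4, ?_⟩
    rwa [show ((n : ℤ) + κ * v).natAbs = ((n : ℤ) + κ * v).toNat by omega] at h5
  · rintro ⟨⟨h1, h2, h3⟩, h4, h5⟩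
    refine ⟨h1, ⟨h2, h1, h3⟩, h4, ?_⟩
    rwa [show ((n : ℤ) + κ * v).natAbs = ((n : ℤ) + κ * v).toNat by omega]

open Classical in
/-- **The asymptotic formula for the primes among `n + v` (`κ = 1`) and `n - v` (`κ = -1`), `v` a decimal
palindrome, for almost all `n`.** For all `B`, `U` and `ε > 0`, all large `L` and `N = 10 ^ (2 L + 1)`: for all
but at most `N / (2 L + 1) ^ U` of the integers `1 ≤ n ≤ B N` (`N ≤ n ≤ B N`, if `κ = -1`) the number of the
palindromes `v` with `2 L + 1` decimal digits such that `n + κ v` is a prime is `expected κ L n`, up to a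
relative error of at most `ε`. Moreover `digitCount κ n ≥ 3` for all `n`. -/
theorem result (B U : ℕ) (ε : ℝ) (hε : 0 < ε) (κ : ℤ) (hκ : κ = 1 ∨ κ = -1) :
    (∃ L₀ : ℕ, ∀ L : ℕ, L₀ ≤ L →
      (((Icc 1 (B * 10 ^ (2 * L + 1))).filter (fun n : ℕ => (κ = 1 ∨ 10 ^ (2 * L + 1) ≤ n) ∧
        ¬ |(primeCount κ (2 * L + 1) n : ℝ) - expected κ L n| ≤ ε * expected κ L n)).card : ℝ) ≤
        (10 : ℝ) ^ (2 * L + 1) / ((2 * L + 1 : ℕ) : ℝ) ^ U) ∧
    ∀ n : ℕ, 3 ≤ digitCount κ n := by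
  refine ⟨?_, cc_ge κ hκ⟩
  obtain ⟨L₀, h0⟩ := pal10 B U ε hε κ hκ
  refine ⟨L₀, fun L hL => ?_⟩
  have h1 := h0 L hL
  rw [Nat.cast_pow, Nat.cast_ofNat] at h1
  refine le_trans ?_ h1
  rw [Nat.cast_le]
  apply card_le_card
  intro n hn
  rw [mem_filter] at hn ⊢
  refine ⟨hn.1, hn.2.1, fun h => hn.2.2 ?_⟩
  rw [prime_eq]
  refine h.trans ?_
  apply mul_le_mul_of_nonneg_left _ hε.le
  have h3 : (1 : ℝ) ≤ cc κ n := by exact_mod_cast (le_trans (by norm_num) (cc_ge κ hκ n) : 1 ≤ cc κ n)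
  have h4 : 0 ≤ GG L := by
    unfold GG
    have : 0 ≤ Real.log ((10 ^ (2 * L + 1) : ℕ) : ℝ) := Real.log_natCast_nonneg _
    positivity
  exact le_mul_of_one_le_left h4 h3

end Pool.Agent.Results.MP_540de1_nt.AsymptoticTranslatesH28
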